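import Mathlib

open Set

namespace Pool.Agent.H.MP_28bd58_gt

/-- `d` is the Hilbert metric of the open convex set `M`; `a`, `b` are the affine ratios
(X,Y;A), (X,Y;B); a missing endpoint (at infinity) has affine ratio 1. -/
def IsHilbert (M : Set (Fin 2 → ℝ)) (d : (Fin 2 → ℝ) → (Fin 2 → ℝ) → ℝ) : Prop :=
  (∀ X ∈ M, d X X = 0) ∧
  ∀ X ∈ M, ∀ Y ∈ M, X ≠ Y → ∀ A ∈ frontier M, ∀ a : ℝ, a • (A - Y) = A - X →
    (∀ B ∈ frontier M, B ≠ A → ∀ b : ℝ, b • (B - Y) = B - X → d X Y = |Real.log (a / b)| / 2) ∧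
    ((∀ B ∈ frontier M, B ∈ affineSpan ℝ {X, Y} → B = A) → d X Y = |Real.log a| / 2)

/-- `P` is a foot of `O` on the line `BC`. -/
def IsFoot (M : Set (Fin 2 → ℝ)) (d : (Fin 2 → ℝ) → (Fin 2 → ℝ) → ℝ) (O B C P : Fin 2 → ℝ) : Prop :=
  P ∈ M ∧ P ∈ affineSpan ℝ {B, C} ∧ ∀ X ∈ M, X ∈ affineSpan ℝ {B, C} → d O P ≤ d O X

end Pool.Agent.H.MP_28bd58_gt
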