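import Pool.Agent.H.MP_28bd58_gt.Defs

open Set Topology

namespace Pool.Agent.H.MP_28bd58_gt

noncomputable section

abbrev V := Fin 2 → ℝ

def dt (u v : V) : ℝ := u 0 * v 1 - u 1 * v 0

def om (a b c : V) : ℝ := dt a b + dt b c + dt c a

theorem tri_int {A B C O : V} (h1 : 0 < om O B C) (h2 : 0 < om O C A) (h3 : 0 < om O A B) :
    O ∈ interior (convexHull ℝ ({A, B, C} : Set V)) := by
  refine mem_interior.2 ⟨{x | 0 < om x B C} ∩ ({x | 0 < om x C A} ∩ {x | 0 < om x A B}), ?_, ?_,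
    h1, h2, h3⟩
  · rintro x ⟨g1, g2, g3⟩
    simp only [mem_setOf_eq] at g1 g2 g3
    have hs : 0 < om x B C + om x C A + om x A B := by positivity
    have := (convex_convexHull ℝ ({A, B, C} : Set V)).sum_mem (t := Finset.univ)
      (w := ![om x B C / (om x B C + om x C A + om x A B), om x C A / (om x B C + om x C A + om x A B),
        om x A B / (om x B C + om x C A + om x A B)]) (z := ![A, B, C])
      (fun i _ => by fin_cases i <;> simp <;> positivity)
      (by simp [Fin.sum_univ_three]; field_simp)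
      (fun i _ => subset_convexHull ℝ _ (by fin_cases i <;> simp))
    convert this using 1
    funext i
    simp only [Fin.sum_univ_three, Matrix.cons_val, Pi.add_apply, Pi.smul_apply, smul_eq_mul]
    field_simp
    fin_cases i <;> simp [om, dt] <;> ring
  · refine IsOpen.inter ?_ (IsOpen.inter ?_ ?_) <;>
      exact isOpen_lt continuous_const (by unfold om dt; fun_prop)

structure Nm (N : V → ℝ) : Prop where
  cont : Continuous N
  add : ∀ v w, N (v + w) ≤ N v + N w
  smul : ∀ (c : ℝ) v, N (c • v) = |c| * N v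
  pos : ∀ v, v ≠ 0 → 0 < N v

theorem Nm.zero {N : V → ℝ} (h : Nm N) : N 0 = 0 := by simpa using h.smul 0 0

theorem Nm.nonneg {N : V → ℝ} (h : Nm N) (v : V) : 0 ≤ N v := by
  by_cases hv : v = 0
  · rw [hv, h.zero]
  · exact (h.pos v hv).le

theorem Nm.neg {N : V → ℝ} (h : Nm N) (v : V) : N (-v) = N v := by simpa using h.smul (-1) v

theorem Nm.cpt {N : V → ℝ} (h : Nm N) : IsCompact {v | N v ≤ 1} := by
  obtain ⟨x, hx, hm⟩ := (isCompact_sphere (0 : V) 1).exists_isMinOn
    ⟨fun _ => 1, by simp⟩ h.cont.continuousOn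
  have hx0 : x ≠ 0 := by
    rintro rfl
    simp at hx
  have hp := h.pos x hx0
  refine Metric.isCompact_of_isClosed_isBounded (isClosed_le h.cont continuous_const) ?_
  refine (Metric.isBounded_closedBall (x := (0 : V)) (r := 1 / N x)).subset fun v hv => ?_
  rw [mem_closedBall_zero_iff, le_div_iff₀ hp]
  by_cases h0 : v = 0
  · simp [h0]
  · have hn : 0 < ‖v‖ := norm_pos_iff.2 h0
    have h1 : N x ≤ N (‖v‖⁻¹ • v) := hm (by simp [norm_smul, hn.ne'])
    rw [h.smul, abs_of_pos (inv_pos.2 hn), ← div_eq_inv_mul, le_div_iff₀ hn] at h1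
    have h2 : N v ≤ 1 := hv
    linarith

theorem Nm.tri {N : V → ℝ} (h : Nm N) : ∃ a b c : V, N a ≤ 1 ∧ N b ≤ 1 ∧ N c ≤ 1 ∧ 0 < om a b c ∧
    ∀ x y z, N x ≤ 1 → N y ≤ 1 → N z ≤ 1 → om x y z ≤ om a b c := by
  obtain ⟨⟨a, b, c⟩, ⟨ha, hb, hc⟩, hm⟩ := (h.cpt.prod (h.cpt.prod h.cpt)).exists_isMaxOn
    (f := fun x : V × V × V => om x.1 x.2.1 x.2.2)
    ⟨(0, 0, 0), by simp [h.zero]⟩ (Continuous.continuousOn (by unfold om dt; fun_prop))
  have hm' : ∀ x y z, N x ≤ 1 → N y ≤ 1 → N z ≤ 1 → om x y z ≤ om a b c :=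
    fun x y z hx hy hz => hm (show (x, y, z) ∈ _ from ⟨hx, hy, hz⟩)
  refine ⟨a, b, c, ha, hb, hc, ?_, hm'⟩
  have p1 := h.pos ![1, 0] (fun h => by simpa using congrFun h 0)
  have p2 := h.pos ![0, 1] (fun h => by simpa using congrFun h 1)
  refine lt_of_lt_of_le ?_ (hm' 0 ((N ![1, 0])⁻¹ • ![1, 0]) ((N ![0, 1])⁻¹ • ![0, 1])
    (by simp [h.zero]) ?_ ?_)
  · simp [om, dt]
    positivity
  · rw [h.smul, abs_of_pos (inv_pos.2 p1), inv_mul_cancel₀ p1.ne']
  · rw [h.smul, abs_of_pos (inv_pos.2 p2), inv_mul_cancel₀ p2.ne']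

theorem Nm.dual {N : V → ℝ} (h : Nm N) {b c : V} {D : ℝ} (hm : ∀ x, N x ≤ 1 → om x b c ≤ D)
    (x : V) : -dt x (b - c) ≤ (D - dt b c) * N x := by
  by_cases h0 : x = 0
  · simp [h0, h.zero, dt]
  · have hp := h.pos x h0
    have := hm (-((N x)⁻¹ • x)) (by
      rw [h.neg, h.smul, abs_of_pos (inv_pos.2 hp), inv_mul_cancel₀ hp.ne'])
    have e : om (-((N x)⁻¹ • x)) b c = dt b c + -dt x (b - c) / N x := by
      simp [om, dt]
      field_simp
      ring
    rw [e, ← le_sub_iff_add_le', div_le_iff₀ hp] at this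
    exact this

theorem tanh_log {R : ℝ} (hR : 0 < R) : Real.tanh (Real.log R / 2) = (R - 1) / (R + 1) := by
  have h1 : Real.exp (Real.log R / 2) * Real.exp (Real.log R / 2) = R := by
    rw [← Real.exp_add, add_halves, Real.exp_log hR]
  have h2 := Real.exp_pos (Real.log R / 2)
  rw [Real.tanh_eq_sinh_div_cosh, Real.sinh_eq, Real.cosh_eq, Real.exp_neg]
  generalize Real.exp (Real.log R / 2) = e at *
  subst h1
  field_simp

section
variable {M : Set V} {d : V → V → ℝ} {O : V}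

def sh (M : Set V) (O : V) : Set V := (fun v => O + v) ⁻¹' M

theorem sh_conv (hc : Convex ℝ M) : Convex ℝ (sh M O) := hc.translate_preimage_right O

theorem sh_nhds (ho : IsOpen M) (hO : O ∈ M) : sh M O ∈ 𝓝 (0 : V) :=
  (ho.preimage (by fun_prop)).mem_nhds (by simpa using hO)

theorem mem_iff (ho : IsOpen M) (hc : Convex ℝ M) (hO : O ∈ M) (v : V) :
    O + v ∈ M ↔ gauge (sh M O) v < 1 := by
  rw [gauge_lt_one_iff_mem_interior (sh_conv hc) (sh_nhds ho hO),
    IsOpen.interior_eq (s := sh M O) (ho.preimage (by fun_prop))]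
  rfl

theorem fr_iff (ho : IsOpen M) (hc : Convex ℝ M) (hO : O ∈ M) (v : V) :
    O + v ∈ frontier M ↔ gauge (sh M O) v = 1 := by
  rw [gauge_eq_one_iff_mem_frontier (sh_conv hc) (sh_nhds ho hO)]
  have := (Homeomorph.addLeft O).preimage_frontier M
  exact Set.ext_iff.1 this v

theorem g_smul {s : Set V} {c : ℝ} (hc : 0 ≤ c) (v : V) : gauge s (c • v) = c * gauge s v :=
  gauge_smul_of_nonneg hc v

theorem g_smul' {s : Set V} {c : ℝ} (hc : c ≤ 0) (v : V) : gauge s (c • v) = -c * gauge s (-v) := by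
  rw [← g_smul (neg_nonneg.2 hc), neg_smul_neg]

def NN (M : Set V) (O v : V) : ℝ := (gauge (sh M O) v + gauge (sh M O) (-v)) / 2

theorem nm (ho : IsOpen M) (hc : Convex ℝ M) (hO : O ∈ M)
    (hl : ∀ x v : V, v ≠ 0 → ∃ t : ℝ, x + t • v ∉ M) : Nm (NN M O) where
  cont := by
    have := continuous_gauge (sh_conv hc) (sh_nhds ho hO)
    unfold NN
    fun_prop
  add v w := by
    have ha := absorbent_nhds_zero (𝕜 := ℝ) (sh_nhds ho hO)
    have h1 := gauge_add_le (sh_conv hc) ha v w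
    have h2 := gauge_add_le (sh_conv hc) ha (-v) (-w)
    unfold NN
    rw [neg_add]
    linarith
  smul c v := by
    unfold NN
    rcases le_total 0 c with h | h
    · rw [← smul_neg, g_smul h, g_smul h, abs_of_nonneg h]
      ring
    · rw [← smul_neg, g_smul' h, g_smul' h, abs_of_nonpos h, neg_neg]
      ring
  pos v hv := by
    obtain ⟨t, ht⟩ := hl O v hv
    rw [mem_iff ho hc hO, not_lt] at ht
    have h1 := gauge_nonneg (s := sh M O) v
    have h2 := gauge_nonneg (s := sh M O) (-v)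
    unfold NN
    by_contra hn
    have e1 : gauge (sh M O) v = 0 := by linarith
    have e2 : gauge (sh M O) (-v) = 0 := by linarith
    rcases le_total 0 t with h | h
    · rw [g_smul h, e1] at ht
      linarith
    · rw [g_smul' h, e2] at ht
      linarith

def RR (M : Set V) (O v : V) : ℝ := (1 + gauge (sh M O) (-v)) / (1 - gauge (sh M O) v)

theorem d_eq (ho : IsOpen M) (hc : Convex ℝ M) (hO : O ∈ M)
    (hl : ∀ x v : V, v ≠ 0 → ∃ t : ℝ, x + t • v ∉ M) (hd : IsHilbert M d) {v : V}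
    (hv : O + v ∈ M) : d O (O + v) = Real.log (RR M O v) / 2 := by
  by_cases h0 : v = 0
  · simp [h0, RR, hd.1 O hO]
  have hp := (nm ho hc hO hl).pos v h0
  have h1 := gauge_nonneg (s := sh M O) v
  have h2 := gauge_nonneg (s := sh M O) (-v)
  have h3 := (mem_iff ho hc hO v).1 hv
  have hne : O ≠ O + v := by simpa using h0
  unfold NN at hp
  unfold RR
  set p := gauge (sh M O) v with hp1
  set q := gauge (sh M O) (-v) with hq1
  have hA : 0 < q → O + (-q⁻¹) • v ∈ frontier M ∧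
      (1 + q)⁻¹ • (O + (-q⁻¹) • v - (O + v)) = O + (-q⁻¹) • v - O := fun hq => by
    constructor
    · rw [fr_iff ho hc hO, g_smul' (by simpa using hq.le), neg_neg, inv_mul_cancel₀ hq.ne']
    · funext i
      simp
      field_simp
      ring
  have hB : 0 < p → O + p⁻¹ • v ∈ frontier M ∧
      (1 - p)⁻¹ • (O + p⁻¹ • v - (O + v)) = O + p⁻¹ • v - O := fun hq => by
    constructor
    · rw [fr_iff ho hc hO, g_smul (by simpa using hq.le), inv_mul_cancel₀ hq.ne']
    · have : 1 - p ≠ 0 := by linarith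
      funext i
      simp
      field_simp
  have hline : ∀ B ∈ frontier M, B ∈ affineSpan ℝ ({O, O + v} : Set V) →
      ∃ t : ℝ, B = O + t • v ∧ ((0 ≤ t ∧ t * p = 1) ∨ (t ≤ 0 ∧ -t * q = 1)) := by
    intro B hB1 hB2
    obtain ⟨t, rfl⟩ := mem_affineSpan_pair_iff_exists_lineMap_eq.1 hB2
    have e : AffineMap.lineMap O (O + v) t = O + t • v := by
      simp [AffineMap.lineMap_apply, add_comm]
    rw [e, fr_iff ho hc hO] at hB1
    refine ⟨t, e, ?_⟩
    rcases le_total 0 t with h | h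
    · exact Or.inl ⟨h, by rwa [g_smul h] at hB1⟩
    · exact Or.inr ⟨h, by rwa [g_smul' h] at hB1⟩
  have hR : 1 ≤ (1 + q) / (1 - p) := by
    rw [le_div_iff₀ (by linarith)]
    linarith
  have hlog := Real.log_nonneg hR
  rcases h2.eq_or_lt with hq | hq
  · have hpp : 0 < p := by linarith
    rw [((hd.2 O hO _ hv hne _ (hB hpp).1 _ (hB hpp).2).2 ?_), ← hq]
    · rw [← hq] at hlog
      rw [add_zero, one_div] at hlog ⊢
      rw [abs_of_nonneg hlog]
    · intro B h4 h5
      obtain ⟨t, rfl, h6 | h6⟩ := hline B h4 h5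
      · rw [eq_inv_of_mul_eq_one_left h6.2]
      · rw [← hq] at h6
        simp at h6
  · rcases h1.eq_or_lt with hpp | hpp
    · rw [((hd.2 O hO _ hv hne _ (hA hq).1 _ (hA hq).2).2 ?_), ← hpp]
      · rw [← hpp] at hlog
        rw [sub_zero, div_one] at hlog ⊢
        rw [Real.log_inv, abs_neg, abs_of_nonneg hlog]
      · intro B h4 h5
        obtain ⟨t, rfl, h6 | h6⟩ := hline B h4 h5
        · rw [← hpp] at h6
          simp at h6
        · rw [← eq_inv_of_mul_eq_one_left h6.2, neg_neg]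
    · rw [(hd.2 O hO _ hv hne _ (hB hpp).1 _ (hB hpp).2).1 _ (hA hq).1 ?_ _ (hA hq).2]
      · rw [show (1 - p)⁻¹ / (1 + q)⁻¹ = (1 + q) / (1 - p) by field_simp, abs_of_nonneg hlog]
      · intro h4
        have h5 : (p⁻¹ + q⁻¹) • v = 0 := by
          have := add_left_cancel h4
          rw [add_smul, ← this, neg_smul, neg_add_cancel]
        rcases smul_eq_zero.1 h5 with h6 | h6
        · have : 0 < p⁻¹ + q⁻¹ := by positivity
          linarith
        · exact h0 h6

theorem mem_small (ho : IsOpen M) (hc : Convex ℝ M) (hO : O ∈ M) {v : V} (h : NN M O v < 1 / 2) :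
    O + v ∈ M := by
  rw [mem_iff ho hc hO]
  have h2 := gauge_nonneg (s := sh M O) (-v)
  unfold NN at h
  linarith

theorem T_bd (ho : IsOpen M) (hc : Convex ℝ M) (hO : O ∈ M)
    (hl : ∀ x v : V, v ≠ 0 → ∃ t : ℝ, x + t • v ∉ M) (hd : IsHilbert M d) {v : V}
    (hv : O + v ∈ M) : NN M O v / (1 + NN M O v) ≤ Real.tanh (d O (O + v)) ∧
      (NN M O v < 1 → Real.tanh (d O (O + v)) ≤ NN M O v / (1 - NN M O v)) := by
  have h1 := gauge_nonneg (s := sh M O) v
  have h2 := gauge_nonneg (s := sh M O) (-v)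
  have h3 := (mem_iff ho hc hO v).1 hv
  have h4 : 0 < 1 - gauge (sh M O) v := by linarith
  rw [d_eq ho hc hO hl hd hv, tanh_log (by unfold RR; positivity)]
  unfold RR NN
  generalize gauge (sh M O) v = p at *
  generalize gauge (sh M O) (-v) = q at *
  have e : ((1 + q) / (1 - p) - 1) / ((1 + q) / (1 - p) + 1) = ((p + q) / 2) / (1 + (q - p) / 2) := by
    have : 2 + q - p ≠ 0 := by linarith
    have : 1 + q + (1 - p) ≠ 0 := by linarith
    have : 2 + (q - p) ≠ 0 := by linarith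
    field_simp
    ring
  rw [e]
  constructor
  · exact div_le_div_of_nonneg_left (by positivity) (by linarith) (by linarith)
  · intro h
    exact div_le_div_of_nonneg_left (by positivity) (by linarith) (by linarith)

theorem foot (ho : IsOpen M) (hc : Convex ℝ M) (hO : O ∈ M)
    (hl : ∀ x v : V, v ≠ 0 → ∃ t : ℝ, x + t • v ∉ M) (hd : IsHilbert M d) {b : V} (C : V)
    (hb : NN M O b ≤ 1 / 5) : ∃ P, IsFoot M d O (O + b) C P := by
  have hn := nm ho hc hO hl
  have hg := continuous_gauge (sh_conv hc) (sh_nhds ho hO)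
  have hK : IsCompact ({v | NN M O v ≤ 1} ∩ ({v | NN M O v ≤ 1 / 3} ∩
      (fun v => O + v) ⁻¹' (affineSpan ℝ ({O + b, C} : Set V) : Set V))) :=
    hn.cpt.inter_right ((isClosed_le hn.cont continuous_const).inter
      ((AffineSubspace.closed_of_finiteDimensional _).preimage (by fun_prop)))
  have hbK : b ∈ ({v | NN M O v ≤ 1} ∩ ({v | NN M O v ≤ 1 / 3} ∩
      (fun v => O + v) ⁻¹' (affineSpan ℝ ({O + b, C} : Set V) : Set V))) :=
    ⟨show NN M O b ≤ 1 by linarith, show NN M O b ≤ 1 / 3 by linarith,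
      left_mem_affineSpan_pair ℝ _ _⟩
  have hpos : ∀ v, O + v ∈ M → 0 < 1 - gauge (sh M O) v := fun v hv => by
    linarith [(mem_iff ho hc hO v).1 hv]
  obtain ⟨v, ⟨-, hv1, hv2⟩, hm⟩ := hK.exists_isMinOn ⟨b, hbK⟩ (f := RR M O) (by
    refine ContinuousOn.div (by fun_prop) (by fun_prop) fun v hv => (hpos v ?_).ne'
    exact mem_small ho hc hO (lt_of_le_of_lt hv.2.1 (by norm_num)))
  have hvM : O + v ∈ M := mem_small ho hc hO (lt_of_le_of_lt hv1 (by norm_num))
  refine ⟨O + v, hvM, hv2, fun X hX hX2 => ?_⟩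
  obtain ⟨w, rfl⟩ : ∃ w, X = O + w := ⟨X - O, by abel⟩
  rw [d_eq ho hc hO hl hd hvM, d_eq ho hc hO hl hd hX]
  have h1 := gauge_nonneg (s := sh M O) (-v)
  have h2 := hpos v hvM
  refine div_le_div_of_nonneg_right (Real.log_le_log (by unfold RR; positivity) ?_) zero_le_two
  rcases le_total (NN M O w) (1 / 3) with h | h
  · exact hm ⟨show NN M O w ≤ 1 by linarith, h, hX2⟩
  · refine (hm hbK).trans (le_trans (b := 5 / 3) ?_ ?_)
    · have h3 := gauge_nonneg (s := sh M O) (-b)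
      have h4 := gauge_nonneg (s := sh M O) b
      unfold NN at hb
      unfold RR
      rw [div_le_iff₀ (by linarith)]
      linarith
    · have h3 := gauge_nonneg (s := sh M O) (-w)
      have h4 := gauge_nonneg (s := sh M O) w
      unfold NN at h
      unfold RR
      rw [le_div_iff₀ (hpos w hX)]
      linarith

theorem side (ho : IsOpen M) (hc : Convex ℝ M) (hO : O ∈ M)
    (hl : ∀ x v : V, v ≠ 0 → ∃ t : ℝ, x + t • v ∉ M) (hd : IsHilbert M d) {b c g : V} {D e : ℝ}
    (hD : 0 < D) (he : 0 < e) (he1 : e ≤ 1 / 10) (hm : ∀ x, NN M O x ≤ 1 → om x b c ≤ D)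
    (h0 : 0 ≤ dt b c) (h1 : 2 * dt b c ≤ D) (hg : om g b c = D / 3) {P : V}
    (hP : IsFoot M d O (O + e • (b - e • g)) (O + e • (c - e • g)) P) :
    e * (1 - e) / (1 + e) * ((9 * (dt b c / D) - 1) / 4) ≤ Real.tanh (d O P) := by
  obtain ⟨hPM, hP2, -⟩ := hP
  obtain ⟨t, ht⟩ := mem_affineSpan_pair_iff_exists_lineMap_eq.1 hP2
  obtain ⟨w, rfl⟩ : ∃ w, P = O + w := ⟨P - O, by abel⟩
  have hw : ∀ i, w i = e * (b i + t * (c i - b i) - e * g i) := fun i => by
    have := congrFun ht i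
    simp [AffineMap.lineMap_apply] at this
    linarith
  have hn := nm ho hc hO hl
  have h2 := hn.dual hm w
  have h3 : -dt w (b - c) = e * ((1 - e) * dt b c + e * (D / 3)) := by
    rw [← hg]
    simp [dt, om, hw]
    ring
  rw [h3] at h2
  refine le_trans ?_ (T_bd ho hc hO hl hd hPM).1
  have hN := hn.nonneg w
  generalize NN M O w = n at *
  obtain ⟨α, hα⟩ : ∃ α, dt b c = α * D := ⟨dt b c / D, by field_simp⟩
  rw [hα] at h0 h1 h2 ⊢
  rw [mul_div_cancel_right₀ _ hD.ne']
  have a0 : 0 ≤ α := by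
    by_contra h
    nlinarith
  have a1 : α ≤ 1 / 2 := by
    by_contra h
    nlinarith
  have a2 : e * (1 - e) * α ≤ (1 - α) * n := by
    have : e * (1 - e) * α * D ≤ (1 - α) * n * D := by nlinarith [mul_pos (mul_pos he he) hD]
    exact le_of_mul_le_mul_right this hD
  set m := e * (1 - e) * ((9 * α - 1) / 4) with hm1
  have k0 : 0 < e * (1 - e) := mul_pos he (by linarith)
  have a3 : m ≤ n := by
    have : m * (1 - α) ≤ n * (1 - α) := by
      nlinarith [mul_nonneg k0.le (sq_nonneg (3 * α - 1))]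
    exact le_of_mul_le_mul_right this (by linarith)
  have a4 : m ≤ e := by nlinarith [mul_pos he he]
  rw [div_mul_eq_mul_div, ← hm1, div_le_div_iff₀ (by linarith) (by linarith)]
  nlinarith [mul_le_mul_of_nonneg_left a4 hN]

theorem main (ho : IsOpen M) (hc : Convex ℝ M) (hO : O ∈ M)
    (hl : ∀ x v : V, v ≠ 0 → ∃ t : ℝ, x + t • v ∉ M) (hd : IsHilbert M d) {ε : ℝ} (hε : 0 < ε) :
    ∃ A ∈ M, ∃ B ∈ M, ∃ C ∈ M, ∃ P Q R : V, O ∈ interior (convexHull ℝ ({A, B, C} : Set V)) ∧
      IsFoot M d O B C P ∧ IsFoot M d O C A Q ∧ IsFoot M d O A B R ∧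
      (Real.tanh (d O A) + Real.tanh (d O B) + Real.tanh (d O C)) /
        (Real.tanh (d O P) + Real.tanh (d O Q) + Real.tanh (d O R)) ≤ 2 + ε := by
  have hn := nm ho hc hO hl
  obtain ⟨a, b, c, ha, hb, hc', hD, hm⟩ := hn.tri
  set D := om a b c with hD1
  obtain ⟨e, he, he1, he2⟩ : ∃ e : ℝ, 0 < e ∧ e ≤ 1 / 10 ∧ e ≤ ε / 20 :=
    ⟨min (1 / 10) (ε / 20), by positivity, min_le_left _ _, min_le_right _ _⟩
  set g : V := (1 / 3 : ℝ) • (a + b + c) with hg
  have hgN : NN M O g ≤ 1 := by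
    rw [hg, hn.smul, abs_of_pos (by norm_num)]
    linarith [hn.add (a + b) c, hn.add a b]
  have hv : ∀ x, NN M O x ≤ 1 → NN M O (e • (x - e • g)) ≤ e * (1 + e) := fun x hx => by
    rw [hn.smul, abs_of_pos he, sub_eq_add_neg]
    have h1 := hn.add x (-(e • g))
    rw [hn.neg, hn.smul, abs_of_pos he] at h1
    have := mul_le_mul_of_nonneg_left hgN he.le
    exact mul_le_mul_of_nonneg_left (by linarith) he.le
  have u1 : e * (1 + e) ≤ 1 / 5 := by nlinarith
  have hM : ∀ x, NN M O x ≤ 1 → O + e • (x - e • g) ∈ M := fun x hx =>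
    mem_small ho hc hO (by linarith [hv x hx])
  have hT : ∀ x, NN M O x ≤ 1 → Real.tanh (d O (O + e • (x - e • g))) ≤
      e * (1 + e) / (1 - e * (1 + e)) := fun x hx => by
    refine ((T_bd ho hc hO hl hd (hM x hx)).2 (by linarith [hv x hx])).trans ?_
    have := hv x hx
    gcongr
    linarith
  have m1 : ∀ x, NN M O x ≤ 1 → om x b c ≤ D := fun x hx => hm x b c hx hb hc'
  have m2 : ∀ x, NN M O x ≤ 1 → om x c a ≤ D := fun x hx => hm x c a hx hc' ha
  have m3 : ∀ x, NN M O x ≤ 1 → om x a b ≤ D := fun x hx => hm x a b hx ha hb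
  have half : ∀ y z : V, NN M O y ≤ 1 → (∀ x, NN M O x ≤ 1 → om x y z ≤ D) → 2 * dt y z ≤ D :=
    fun y z hy h => by
      have := h (-y) (by rwa [hn.neg])
      simp only [om, dt, Pi.neg_apply] at this ⊢
      linarith
  have k1 := half b c hb m1
  have k2 := half c a hc' m2
  have k3 := half a b ha m3
  have hs : dt a b + dt b c + dt c a = D := rfl
  have g1 : om g b c = D / 3 := by simp [hg, hD1, om, dt]; ring
  have g2 : om g c a = D / 3 := by simp [hg, hD1, om, dt]; ring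
  have g3 : om g a b = D / 3 := by simp [hg, hD1, om, dt]; ring
  obtain ⟨P, hP⟩ := foot ho hc hO hl hd (O + e • (c - e • g)) ((hv b hb).trans u1)
  obtain ⟨Q, hQ⟩ := foot ho hc hO hl hd (O + e • (a - e • g)) ((hv c hc').trans u1)
  obtain ⟨R, hR⟩ := foot ho hc hO hl hd (O + e • (b - e • g)) ((hv a ha).trans u1)
  have inn : ∀ y z : V, 0 ≤ dt y z → om g y z = D / 3 →
      0 < om O (O + e • (y - e • g)) (O + e • (z - e • g)) := fun y z h1 h2 => by
    have : om O (O + e • (y - e • g)) (O + e • (z - e • g)) =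
        e * e * ((1 - e) * dt y z + e * om g y z) := by
      simp [om, dt]
      ring
    rw [this, h2]
    have : 0 ≤ (1 - e) * dt y z := mul_nonneg (by linarith) h1
    positivity
  refine ⟨_, hM a ha, _, hM b hb, _, hM c hc', P, Q, R,
    tri_int (inn b c (by linarith) g1) (inn c a (by linarith) g2) (inn a b (by linarith) g3),
    hP, hQ, hR, ?_⟩
  have s1 := side ho hc hO hl hd hD he he1 m1 (by linarith) k1 g1 hP
  have s2 := side ho hc hO hl hd hD he he1 m2 (by linarith) k2 g2 hQ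
  have s3 := side ho hc hO hl hd hD he he1 m3 (by linarith) k3 g3 hR
  have hsum : dt b c / D + dt c a / D + dt a b / D = 1 := by
    field_simp
    linarith
  have k0 : 0 < e * (1 - e) / (1 + e) := div_pos (mul_pos he (by linarith)) (by linarith)
  have s4 : e * (1 - e) / (1 + e) * (3 / 2) ≤
      Real.tanh (d O P) + Real.tanh (d O Q) + Real.tanh (d O R) := by
    have : e * (1 - e) / (1 + e) * (3 / 2) = e * (1 - e) / (1 + e) * ((9 * (dt b c / D) - 1) / 4) +
        e * (1 - e) / (1 + e) * ((9 * (dt c a / D) - 1) / 4) +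
        e * (1 - e) / (1 + e) * ((9 * (dt a b / D) - 1) / 4) := by
      linear_combination (-(9 / 4) * (e * (1 - e) / (1 + e))) * hsum
    linarith
  rw [div_le_iff₀ (lt_of_lt_of_le (by positivity) s4)]
  have fin : 3 * (e * (1 + e) / (1 - e * (1 + e))) ≤
      (2 + 20 * e) * (e * (1 - e) / (1 + e) * (3 / 2)) := by
    have q1 : 0 < 1 - e * (1 + e) := by linarith
    rw [show (2 + 20 * e) * (e * (1 - e) / (1 + e) * (3 / 2)) =
      3 * (e * ((1 + 10 * e) * (1 - e)) / (1 + e)) by field_simp; ring]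
    refine mul_le_mul_of_nonneg_left ?_ (by norm_num)
    rw [div_le_div_iff₀ q1 (by linarith), mul_assoc, mul_assoc]
    refine mul_le_mul_of_nonneg_left ?_ he.le
    have w1 : 1 + 8 * e ≤ (1 + 10 * e) * (1 - e) := by nlinarith
    have w2 : 1 - 2 * e ≤ 1 - e * (1 + e) := by nlinarith
    have w3 : (1 + 8 * e) * (1 - 2 * e) ≤ (1 + 10 * e) * (1 - e) * (1 - e * (1 + e)) :=
      mul_le_mul w1 w2 (by linarith) (by nlinarith)
    nlinarith
  have t1 := hT a ha
  have t2 := hT b hb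
  have t3 := hT c hc'
  have f2 : (2 + 20 * e) * (e * (1 - e) / (1 + e) * (3 / 2)) ≤
      (2 + ε) * (Real.tanh (d O P) + Real.tanh (d O Q) + Real.tanh (d O R)) :=
    mul_le_mul (by linarith) s4 (by positivity) (by linarith)
  linarith

end

end

end Pool.Agent.H.MP_28bd58_gt
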